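import Mathlib

/-! Counting integer points of dilated Pitman–Stanley polytopes `PS_n(a, b, …, b)`. -/

namespace Pool.Agent.H125R3.PS

/-- integer points, built recursively -/
def pts : (n : ℕ) → (A B : ℕ) → Finset (Fin n → ℕ)
  | 0, _, _ => Finset.univ
  | n + 1, A, B => (Finset.range (A + 1)).biUnion fun j =>
      (pts n (j + B) B).image fun y => (Fin.cons (A - j) y : Fin (n + 1) → ℕ)

lemma sum_Iic_eq {M : Type*} [AddCommMonoid M] {n : ℕ} (y : Fin n → M) (k : Fin n) :
    ∑ i ∈ Finset.Iic k, y i = ∑ i, if i ≤ k then y i else 0 := by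
  rw [← Finset.sum_filter]
  congr 1
  ext i; simp

lemma sum_Iic_zero {M : Type*} [AddCommMonoid M] {n : ℕ} (y : Fin (n + 1) → M) :
    ∑ i ∈ Finset.Iic (0 : Fin (n + 1)), y i = y 0 := by
  rw [sum_Iic_eq, Fin.sum_univ_succ]
  simp

lemma sum_Iic_succ {M : Type*} [AddCommMonoid M] {n : ℕ} (y : Fin (n + 1) → M) (k : Fin n) :
    ∑ i ∈ Finset.Iic (Fin.succ k), y i = y 0 + ∑ i ∈ Finset.Iic k, y (Fin.succ i) := by
  rw [sum_Iic_eq, sum_Iic_eq, Fin.sum_univ_succ]
  simp

lemma mem_pts (n : ℕ) : ∀ (A B : ℕ) (y : Fin n → ℕ),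
    y ∈ pts n A B ↔ ∀ k : Fin n, ∑ i ∈ Finset.Iic k, y i ≤ A + k * B := by
  induction n with
  | zero =>
    intro A B y
    constructor
    · intro _ k; exact k.elim0
    · intro _; exact Finset.mem_univ y
  | succ n ih =>
    intro A B y
    simp only [pts, Finset.mem_biUnion, Finset.mem_range, Finset.mem_image]
    constructor
    · rintro ⟨j, hj, y', hy', rfl⟩ k
      rw [ih] at hy'
      refine Fin.cases ?_ (fun k => ?_) k
      · rw [sum_Iic_zero]; simp
      · rw [sum_Iic_succ]
        have := hy' k
        simp only [Fin.cons_zero, Fin.cons_succ, Fin.val_succ]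
        have h2 : (k.val + 1) * B = k.val * B + B := by ring
        omega
    · intro h
      have h0 := h 0
      rw [sum_Iic_zero] at h0
      simp only [Fin.val_zero, zero_mul, add_zero] at h0
      refine ⟨A - y 0, by omega, Fin.tail y, ?_, ?_⟩
      · rw [ih]
        intro k
        have := h (Fin.succ k)
        rw [sum_Iic_succ] at this
        simp only [Fin.val_succ] at this
        have h2 : (k.val + 1) * B = k.val * B + B := by ring
        have h3 : ∑ i ∈ Finset.Iic k, Fin.tail y i = ∑ i ∈ Finset.Iic k, y (Fin.succ i) := rfl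
        rw [h3]
        omega
      · have h1 : A - (A - y 0) = y 0 := by omega
        rw [h1]
        exact Fin.cons_self_tail y

lemma card_pts_succ (n A B : ℕ) :
    (pts (n + 1) A B).card = ∑ j ∈ Finset.range (A + 1), (pts n (j + B) B).card := by
  rw [pts, Finset.card_biUnion]
  · refine Finset.sum_congr rfl fun j _ => ?_
    rw [Finset.card_image_of_injective]
    intro y y' h
    exact Fin.cons_right_injective (α := fun _ => ℕ) _ h
  · intro j hj j' hj' hne
    change Disjoint _ _
    rw [Finset.disjoint_left]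
    intro y hy hy'
    rw [Finset.mem_image] at hy hy'
    obtain ⟨y1, -, rfl⟩ := hy
    obtain ⟨y2, -, h2⟩ := hy'
    have h3 := congrFun h2 0
    simp only [Fin.cons_zero] at h3
    simp only [Finset.coe_range, Set.mem_Iio] at hj hj'
    omega

lemma card_pts (n : ℕ) : ∀ A B : ℕ, (n + 1).factorial * (pts (n + 1) A B).card =
    (A + 1) * (A + (n + 1) * (B + 1)).descFactorial n := by
  induction n with
  | zero =>
    intro A B
    rw [card_pts_succ]
    simp [pts]
  | succ n ih =>
    intro A B
    induction A with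
    | zero =>
      rw [card_pts_succ]
      simp only [zero_add, Finset.range_one, Finset.sum_singleton, one_mul]
      rw [Nat.factorial_succ, mul_assoc, ih]
      obtain ⟨m, hm⟩ : ∃ m, (n + 1 + 1) * (B + 1) = m + 1 :=
        ⟨(n + 1 + 1) * (B + 1) - 1, by have : 0 < (n + 1 + 1) * (B + 1) := by positivity
                                       omega⟩
      have hm2 : B + (n + 1) * (B + 1) = m := by
        have : (n + 1 + 1) * (B + 1) = (n + 1) * (B + 1) + B + 1 := by ring
        omega
      rw [hm2, hm, Nat.succ_descFactorial_succ, ← mul_assoc, hm]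
    | succ A ihA =>
      rw [card_pts_succ, Finset.sum_range_succ, ← card_pts_succ, mul_add, ihA]
      rw [Nat.factorial_succ, mul_assoc, ih]
      set y := A + (n + 1 + 1) * (B + 1) with hy
      have h1 : A + 1 + B + (n + 1) * (B + 1) = y := by rw [hy]; ring
      have h2 : A + 1 + (n + 1 + 1) * (B + 1) = y + 1 := by rw [hy]; ring
      rw [h1, h2, Nat.succ_descFactorial_succ, Nat.descFactorial_succ]
      have hny : n ≤ y := by
        rw [hy]
        have : (n + 1 + 1) * 1 ≤ (n + 1 + 1) * (B + 1) := Nat.mul_le_mul_left _ (by omega)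
        omega
      obtain ⟨d, hd⟩ : ∃ d, y = n + d := ⟨y - n, by omega⟩
      have hyn : y - n = d := by omega
      rw [hyn]
      have hkey : (A + 1) * d + (n + 1 + 1) * (A + 1 + B + 1) = (A + 1 + 1) * (y + 1) := by
        have h3 : n + d = A + (n + 1 + 1) * (B + 1) := by rw [← hd]
        rw [hd]
        nlinarith
      calc (A + 1) * (d * y.descFactorial n) +
            (n + 1 + 1) * ((A + 1 + B + 1) * y.descFactorial n)
          = ((A + 1) * d + (n + 1 + 1) * (A + 1 + B + 1)) * y.descFactorial n := by ring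
        _ = (A + 1 + 1) * ((y + 1) * y.descFactorial n) := by rw [hkey]; ring

lemma card_pts_prod (n a b t : ℕ) :
    (n + 1).factorial * (pts (n + 1) (t * a) (t * b)).card =
      (a * t + 1) * ∏ i ∈ Finset.range n, ((a + (n + 1) * b) * t + (i + 2)) := by
  rw [card_pts, mul_comm t a]
  congr 1
  have h1 : a * t + (n + 1) * (t * b + 1) = ((a + (n + 1) * b) * t + 1) + n := by ring
  rw [h1, Nat.add_descFactorial_eq_ascFactorial, Nat.ascFactorial_eq_prod_range]
  exact Finset.prod_congr rfl fun i _ => by ring

end Pool.Agent.H125R3.PS
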