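import Mathlib

/-! Real-rootedness of numerators: multiplication by a linear factor with root in `[-1, 0)`. -/

open Polynomial

namespace Pool.Agent.H125R3.PS

/-- If `∑ f(t) z^t = w / (1-z)^(n+1)`, then `∑ (u t + v) f(t) z^t = T n u v w / (1-z)^(n+2)`. -/
noncomputable def T (n : ℕ) (u v : ℝ) (w : ℝ[X]) : ℝ[X] :=
  C u * (X * (1 - X)) * derivative w + (C (u * (n + 1)) * X + C v * (1 - X)) * w

lemma eval_T (n : ℕ) (u v : ℝ) (w : ℝ[X]) (x : ℝ) :
    (T n u v w).eval x = u * (x * (1 - x)) * (derivative w).eval x +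
      (u * (n + 1) * x + v * (1 - x)) * w.eval x := by
  simp [T]

lemma coeff_T_zero (n : ℕ) (u v : ℝ) (w : ℝ[X]) : (T n u v w).coeff 0 = v * w.coeff 0 := by
  rw [coeff_zero_eq_eval_zero, eval_T, coeff_zero_eq_eval_zero]; ring

lemma coeff_T_succ (n : ℕ) (u v : ℝ) (w : ℝ[X]) (k : ℕ) :
    (T n u v w).coeff (k + 1) = (u * (k + 1) + v) * w.coeff (k + 1) +
      (u * (n + 1 - k) - v) * w.coeff k := by
  have h : T n u v w = C u * (X * derivative w) - C u * (X * (X * derivative w)) +
      C (u * (n + 1)) * (X * w) + C v * w - C v * (X * w) := by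
    unfold T; ring
  have h2 : (X * derivative w).coeff k = k * w.coeff k := by
    cases k with
    | zero => simp
    | succ k => rw [coeff_X_mul, coeff_derivative]; push_cast; ring
  rw [h]
  simp only [coeff_add, coeff_sub, coeff_C_mul, coeff_X_mul, coeff_derivative, h2]
  ring

lemma rolle (n : ℕ) {u v : ℝ} (hu : 0 < u) (hv : 0 < v) (w : ℝ[X]) {a b : ℝ} (hab : a < b)
    (hb : b ≤ 0) (ha0 : w.eval a = 0) (hb0 : w.eval b = 0 ∨ b = 0) :
    ∃ c, a < c ∧ c < b ∧ (T n u v w).eval c = 0 := by
  set α : ℝ := v / u with hα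
  have hα0 : 0 < α := div_pos hv hu
  let f : ℝ → ℝ := fun x => ((-x) ^ α * w.eval x) / (1 - x) ^ (n + 1)
  let f' : ℝ → ℝ := fun x =>
    (((-1) * α * (-x) ^ (α - 1) * w.eval x + (-x) ^ α * (derivative w).eval x) * (1 - x) ^ (n + 1) -
      ((-x) ^ α * w.eval x) * (((n + 1 : ℕ) : ℝ) * (1 - x) ^ n * (-1))) / ((1 - x) ^ (n + 1)) ^ 2
  have hfc : ContinuousOn f (Set.Icc a b) := by
    apply ContinuousOn.div
    · apply ContinuousOn.mul
      · apply ContinuousOn.rpow_const
        · exact continuousOn_neg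
        · intro x hx; right; exact hα0.le
      · exact w.continuous.continuousOn
    · fun_prop
    · intro x hx
      have : 0 < 1 - x := by have := hx.2; linarith
      positivity
  have hfI : f a = f b := by
    have h1 : f a = 0 := by simp [f, ha0]
    have h2 : f b = 0 := by
      rcases hb0 with h | h
      · simp [f, h]
      · subst h; simp [f, Real.zero_rpow hα0.ne']
    rw [h1, h2]
  have hff' : ∀ x ∈ Set.Ioo a b, HasDerivAt f (f' x) x := by
    intro x hx
    have hx0 : x < 0 := lt_of_lt_of_le hx.2 hb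
    have hx1 : (1 - x) ≠ 0 := by linarith
    have hA : HasDerivAt (fun x : ℝ => (-x) ^ α) ((-1) * α * (-x) ^ (α - 1)) x :=
      (hasDerivAt_neg x).rpow_const (Or.inl (by linarith))
    have hB : HasDerivAt (fun x : ℝ => w.eval x) ((derivative w).eval x) x := w.hasDerivAt x
    have hC : HasDerivAt (fun x : ℝ => (1 - x) ^ (n + 1))
        (((n + 1 : ℕ) : ℝ) * (1 - x) ^ n * (-1)) x := by
      have h0 : HasDerivAt (fun x : ℝ => 1 - x) (-1) x := by
        simpa using (hasDerivAt_id x).const_sub 1
      have := h0.fun_pow (n + 1)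
      simpa using this
    exact (hA.mul hB).div hC (pow_ne_zero _ hx1)
  obtain ⟨c, hc, hc0⟩ := exists_hasDerivAt_eq_zero hab hfc hfI hff'
  refine ⟨c, hc.1, hc.2, ?_⟩
  have hcn : c < 0 := lt_of_lt_of_le hc.2 hb
  have h1c : 0 < 1 - c := by linarith
  have hP : 0 < (-c) ^ (α - 1) := Real.rpow_pos_of_pos (by linarith) _
  have hPα : (-c) ^ α = (-c) ^ (α - 1) * (-c) := by
    rw [← Real.rpow_add_one (by linarith : (-c) ≠ 0)]; ring_nf
  have hnum : (((-1) * α * (-c) ^ (α - 1) * w.eval c + (-c) ^ α * (derivative w).eval c) *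
      (1 - c) ^ (n + 1) -
      ((-c) ^ α * w.eval c) * (((n + 1 : ℕ) : ℝ) * (1 - c) ^ n * (-1))) = 0 := by
    have := hc0
    simp only [f'] at this
    rcases div_eq_zero_iff.1 this with h | h
    · exact h
    · exact absurd h (by positivity)
  rw [hPα] at hnum
  have hfac : (-((-c) ^ (α - 1) * (1 - c) ^ n)) * (α * (1 - c) * w.eval c +
      c * (1 - c) * (derivative w).eval c + (n + 1) * c * w.eval c) = 0 := by
    rw [← hnum]; push_cast; ring
  have hne : (-((-c) ^ (α - 1) * (1 - c) ^ n)) ≠ 0 := by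
    have : 0 < (-c) ^ (α - 1) * (1 - c) ^ n := by positivity
    linarith
  have h2 := (mul_eq_zero.1 hfac).resolve_left hne
  rw [eval_T]
  have huα : u * α = v := by rw [hα]; field_simp
  rw [← huα]
  linear_combination u * h2

/-- `w` is a positive constant times a product of `X - x` over a finite set of negative reals. -/
def Good (w : ℝ[X]) (s : Finset ℝ) : Prop :=
  (∀ x ∈ s, x < 0) ∧ ∃ c : ℝ, 0 < c ∧ w = C c * ∏ x ∈ s, (X - C x)

lemma Good.eval_eq_zero {w : ℝ[X]} {s : Finset ℝ} (h : Good w s) {x : ℝ} (hx : x ∈ s) :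
    w.eval x = 0 := by
  obtain ⟨-, c, -, rfl⟩ := h
  rw [eval_mul, eval_prod, Finset.prod_eq_zero hx (by simp), mul_zero]

lemma Good.monic_prod (s : Finset ℝ) : (∏ x ∈ s, (X - C x)).Monic :=
  monic_prod_of_monic _ _ fun x _ => monic_X_sub_C x

lemma natDegree_prod (s : Finset ℝ) : (∏ x ∈ s, (X - C x)).natDegree = s.card := by
  rw [natDegree_prod_of_monic _ _ fun x _ => monic_X_sub_C x]; simp

lemma Good.natDegree {w : ℝ[X]} {s : Finset ℝ} (h : Good w s) : w.natDegree = s.card := by
  obtain ⟨-, c, hc, rfl⟩ := h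
  rw [natDegree_C_mul hc.ne', natDegree_prod]

lemma Good.leadingCoeff_pos {w : ℝ[X]} {s : Finset ℝ} (h : Good w s) : 0 < w.coeff s.card := by
  obtain ⟨-, c, hc, rfl⟩ := h
  have : (∏ x ∈ s, (X - C x)).coeff s.card = 1 := by
    have := Good.monic_prod s
    rw [Monic, leadingCoeff, natDegree_prod] at this
    exact this
  rw [coeff_C_mul, this, mul_one]; exact hc

lemma Good.eval_zero_pos {w : ℝ[X]} {s : Finset ℝ} (h : Good w s) : 0 < w.coeff 0 := by
  obtain ⟨h0, c, hc, rfl⟩ := h
  rw [coeff_zero_eq_eval_zero, eval_mul, eval_C, eval_prod]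
  refine mul_pos hc (Finset.prod_pos fun x hx => ?_)
  have := h0 x hx
  simp; exact this

lemma prod_neg (s : Finset ℝ) (a : ℝ) (h : ∀ x ∈ s, a < x) :
    ∃ r : ℝ, 0 < r ∧ ∏ x ∈ s, (a - x) = (-1) ^ s.card * r := by
  refine ⟨∏ x ∈ s, (x - a), Finset.prod_pos fun x hx => by have := h x hx; linarith, ?_⟩
  rw [← Finset.prod_const, ← Finset.prod_mul_distrib]
  exact Finset.prod_congr rfl fun x _ => by ring

lemma prod_dvd (p : ℝ[X]) (hp : p ≠ 0) (t : Finset ℝ) (h : ∀ x ∈ t, p.eval x = 0) :
    (∏ x ∈ t, (X - C x)) ∣ p := by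
  have : (t.val.map fun x => X - C x).prod ∣ p := by
    rw [Multiset.prod_X_sub_C_dvd_iff_le_roots hp]
    rw [Multiset.le_iff_subset t.nodup]
    intro x hx
    rw [mem_roots hp]
    exact h x hx
  exact this

theorem step (n : ℕ) {u v : ℝ} (hu : 0 < u) (hv : 0 < v) (huv : v ≤ u) {w : ℝ[X]} {s : Finset ℝ}
    (hs : s.card ≤ n) (hw : Good w s) :
    ∃ s' : Finset ℝ, Good (T n u v w) s' ∧
      ((s'.card = s.card + 1 ∧ (s.card < n ∨ v < u)) ∨
        (s'.card = s.card ∧ s.card = n ∧ v = u)) := by
  classical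
  set p := T n u v w with hp
  have hp0 : 0 < p.coeff 0 := by
    rw [hp, coeff_T_zero]; exact mul_pos hv hw.eval_zero_pos
  have hpne : p ≠ 0 := by
    intro h; rw [h] at hp0; simp at hp0
  have hdeg1 : p.natDegree ≤ s.card + 1 := by
    rw [natDegree_le_iff_coeff_eq_zero]
    intro N hN
    obtain ⟨k, rfl⟩ : ∃ k, N = k + 1 := ⟨N - 1, by omega⟩
    rw [hp, coeff_T_succ, coeff_eq_zero_of_natDegree_lt (by rw [hw.natDegree]; omega),
      coeff_eq_zero_of_natDegree_lt (by rw [hw.natDegree]; omega)]
    ring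
  have hlead : p.coeff (s.card + 1) = (u * (n + 1 - s.card) - v) * w.coeff s.card := by
    rw [hp, coeff_T_succ, coeff_eq_zero_of_natDegree_lt (n := s.card + 1)
      (by rw [hw.natDegree]; omega)]
    ring
  -- roots to the right of the smallest root
  have key : ∃ t : Finset ℝ, t.card = s.card ∧ (∀ z ∈ t, z < 0 ∧ p.eval z = 0) ∧
      ∀ x ∈ s, (∀ y ∈ s, x ≤ y) → ∀ z ∈ t, x < z := by
    rcases s.eq_empty_or_nonempty with h | h
    · exact ⟨∅, by simp [h], by simp, by simp⟩
    · set ρ := s.min' h with hρ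
      let t := p.roots.toFinset.filter (fun z => ρ < z ∧ z < 0)
      have h1 : (insert 0 s).card ≤ t.card + 1 := by
        apply Finset.card_le_of_interleaved
        intro x hx y hy hxy _
        have hy0 : y ≤ 0 := by
          rcases Finset.mem_insert.1 hy with h' | h'
          · exact h'.le
          · exact (hw.1 y h').le
        have hxs : x ∈ s := by
          rcases Finset.mem_insert.1 hx with h' | h'
          · exfalso; linarith
          · exact h'
        obtain ⟨c, hc1, hc2, hc3⟩ := rolle n hu hv w hxy hy0 (hw.eval_eq_zero hxs) (by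
          rcases Finset.mem_insert.1 hy with h' | h'
          · right; exact h'
          · left; exact hw.eval_eq_zero h')
        refine ⟨c, ?_, hc1, hc2⟩
        simp only [t, Finset.mem_filter, Multiset.mem_toFinset, mem_roots hpne, IsRoot.def]
        exact ⟨hc3, lt_of_le_of_lt (s.min'_le x hxs) hc1, by linarith⟩
      have h2 : (insert 0 s).card = s.card + 1 :=
        Finset.card_insert_of_notMem fun h' => lt_irrefl _ (hw.1 0 h')
      obtain ⟨t0, ht0, hc0⟩ := Finset.exists_subset_card_eq (s := t) (n := s.card) (by omega)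
      refine ⟨t0, hc0, fun z hz => ?_, fun x hx hmin z hz => ?_⟩
      · have := ht0 hz
        simp only [t, Finset.mem_filter, Multiset.mem_toFinset, mem_roots hpne, IsRoot.def] at this
        exact ⟨this.2.2, this.1⟩
      · have := ht0 hz
        simp only [t, Finset.mem_filter, Multiset.mem_toFinset, mem_roots hpne, IsRoot.def] at this
        have hxρ : x = ρ := le_antisymm (hmin ρ (s.min'_mem h)) (s.min'_le x hx)
        rw [hxρ]; exact this.2.1
  obtain ⟨t, htc, ht, htρ⟩ := key
  obtain ⟨q, hq⟩ := prod_dvd p hpne t fun x hx => (ht x hx).2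
  have hqne : q ≠ 0 := by rintro rfl; simp at hq; exact hpne hq
  have hdegpq : p.natDegree = s.card + q.natDegree := by
    rw [hq, (Good.monic_prod t).natDegree_mul' hqne, natDegree_prod, htc]
  by_cases hcase : s.card < n ∨ v < u
  · -- the degree goes up
    have hl : 0 < p.coeff (s.card + 1) := by
      rw [hlead]
      refine mul_pos ?_ hw.leadingCoeff_pos
      rcases hcase with h | h
      · have h' : ((s.card : ℝ) + 1) ≤ n := by exact_mod_cast h
        nlinarith
      · have h' : (s.card : ℝ) ≤ n := by exact_mod_cast hs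
        nlinarith
    have hdp : p.natDegree = s.card + 1 :=
      le_antisymm hdeg1 (le_natDegree_of_ne_zero hl.ne')
    have hdq : q.natDegree = 1 := by omega
    have hql : q.leadingCoeff = p.coeff (s.card + 1) := by
      have h1 : p.leadingCoeff = q.leadingCoeff := by
        rw [hq, leadingCoeff_mul, (Good.monic_prod t).leadingCoeff, one_mul]
      rw [← h1, leadingCoeff, hdp]
    have hq1 : q = C (q.coeff 1) * X + C (q.coeff 0) := eq_X_add_C_of_natDegree_le_one hdq.le
    have hc1 : 0 < q.coeff 1 := by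
      have : q.leadingCoeff = q.coeff 1 := by rw [leadingCoeff, hdq]
      rw [← this, hql]; exact hl
    set c' := q.coeff 1 with hc'
    set z0 : ℝ := - q.coeff 0 / c' with hz0
    have hq2 : q = C c' * (X - C z0) := by
      rw [mul_sub, ← C_mul, hz0, show c' * (-q.coeff 0 / c') = - q.coeff 0 by field_simp]
      rw [C_neg, sub_neg_eq_add]; exact hq1
    -- location of z0
    have hz0lt : z0 < 0 ∧ ∀ z ∈ t, z0 < z := by
      rcases s.eq_empty_or_nonempty with h | h
      · have ht0 : t = ∅ := by rw [← Finset.card_eq_zero, htc, h]; simp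
        refine ⟨?_, by simp [ht0]⟩
        have h1 : p.coeff 0 = c' * (- z0) := by
          rw [hq, ht0, Finset.prod_empty, one_mul, hq2, coeff_zero_eq_eval_zero]; simp
        rw [h1] at hp0
        have := (mul_pos_iff_of_pos_left hc1).1 hp0
        linarith
      · set ρ := s.min' h with hρ
        have hρs : ρ ∈ s := s.min'_mem h
        have hρ0 : ρ < 0 := hw.1 ρ hρs
        have hmin : ∀ y ∈ s, ρ ≤ y := fun y hy => s.min'_le y hy
        obtain ⟨-, c, hc, hwc⟩ := id hw
        have hw2 : w = (X - C ρ) * (C c * ∏ x ∈ s.erase ρ, (X - C x)) := by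
          rw [hwc, ← Finset.mul_prod_erase s _ hρs]; ring
        have hd : (derivative w).eval ρ = c * ∏ x ∈ s.erase ρ, (ρ - x) := by
          rw [hw2, derivative_mul, eval_add, eval_mul, eval_mul]
          simp [eval_prod]
        obtain ⟨r1, hr1, he1⟩ := prod_neg (s.erase ρ) ρ (fun x hx => by
          have := Finset.mem_erase.1 hx
          exact lt_of_le_of_ne (hmin x this.2) (Ne.symm this.1))
        obtain ⟨r2, hr2, he2⟩ := prod_neg t ρ (fun x hx => htρ ρ hρs hmin x hx)
        have hcard : (s.erase ρ).card + 1 = s.card := Finset.card_erase_add_one hρs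
        have hpρ : p.eval ρ = u * (ρ * (1 - ρ)) * (c * ((-1) ^ (s.erase ρ).card * r1)) := by
          rw [hp, eval_T, hw.eval_eq_zero hρs, hd, he1]; ring
        have hpρ2 : p.eval ρ = ((-1) ^ s.card * r2) * (c' * (ρ - z0)) := by
          rw [hq, eval_mul, eval_prod, hq2]
          simp only [eval_sub, eval_X, eval_C, eval_mul]
          rw [he2, htc]
        have hsq : ((-1 : ℝ) ^ (s.erase ρ).card) ^ 2 = 1 := by
          rw [← pow_mul, mul_comm, pow_mul]; simp
        have h3 : r2 * (c' * (ρ - z0)) = - (u * (ρ * (1 - ρ)) * (c * r1)) := by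
          have h4 := hpρ.symm.trans hpρ2
          rw [← hcard, pow_succ] at h4
          set ε := (-1 : ℝ) ^ (s.erase ρ).card
          have h5 : ε * (r2 * (c' * (ρ - z0)) + u * (ρ * (1 - ρ)) * (c * r1)) = 0 := by
            linear_combination h4
          have hε : ε ≠ 0 := by
            intro h6; rw [h6] at hsq; norm_num at hsq
          have := (mul_eq_zero.1 h5).resolve_left hε
          linarith
        have h4 : 0 < r2 * (c' * (ρ - z0)) := by
          rw [h3]
          have h5 : 0 < (-ρ) * (1 - ρ) := mul_pos (by linarith) (by linarith)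
          have h6 : 0 < u * ((-ρ) * (1 - ρ)) * (c * r1) :=
            mul_pos (mul_pos hu h5) (mul_pos hc hr1)
          nlinarith
        have h5 : 0 < ρ - z0 := by
          have := (mul_pos_iff_of_pos_left hr2).1 h4
          exact (mul_pos_iff_of_pos_left hc1).1 this
        exact ⟨by linarith, fun z hz => by have := htρ ρ hρs hmin z hz; linarith⟩
    have hz0t : z0 ∉ t := fun h => lt_irrefl _ (hz0lt.2 z0 h)
    refine ⟨insert z0 t, ⟨?_, c', hc1, ?_⟩, Or.inl ⟨?_, hcase⟩⟩
    · intro x hx
      rcases Finset.mem_insert.1 hx with h | h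
      · rw [h]; exact hz0lt.1
      · exact (ht x h).1
    · rw [Finset.prod_insert hz0t, hq, hq2]; ring
    · rw [Finset.card_insert_of_notMem hz0t, htc]
  · -- the degree stays
    rw [not_or, not_lt, not_lt] at hcase
    have hsn : s.card = n := le_antisymm hs hcase.1
    have huv' : v = u := le_antisymm huv hcase.2
    have hl : p.coeff (s.card + 1) = 0 := by
      rw [hlead, hsn, huv']; ring
    have hdp : p.natDegree ≤ s.card := by
      rw [natDegree_le_iff_coeff_eq_zero]
      intro N hN
      rcases Nat.lt_or_ge (s.card + 1) N with h | h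
      · exact coeff_eq_zero_of_natDegree_lt (by omega)
      · have : N = s.card + 1 := by omega
        rw [this, hl]
    have hdq : q.natDegree = 0 := by omega
    obtain ⟨c', hqc⟩ : ∃ c', q = C c' := ⟨q.coeff 0, eq_C_of_natDegree_eq_zero hdq⟩
    refine ⟨t, ⟨fun x hx => (ht x hx).1, c', ?_, by rw [hq, hqc]; ring⟩,
      Or.inr ⟨htc, hsn, huv'⟩⟩
    have h1 : p.coeff 0 = (∏ x ∈ t, (0 - x)) * c' := by
      rw [coeff_zero_eq_eval_zero, hq, hqc, eval_mul, eval_prod]; simp
    rw [h1] at hp0
    have h2 : 0 < ∏ x ∈ t, (0 - x) := Finset.prod_pos fun x hx => by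
      have := (ht x hx).1; linarith
    exact (mul_pos_iff_of_pos_left h2).1 hp0

end Pool.Agent.H125R3.PS
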