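import Mathlib
import Pool.Agent.H125R3.PS.Root

/-! Generating functions of products of linear factors. -/

open Polynomial

namespace Pool.Agent.H125R3.PS

/-- `w` is the numerator of `∑ f(t) z^t` over `(1-z)^(n+1)`. -/
def IsNum (n : ℕ) (f : ℕ → ℝ) (w : ℝ[X]) : Prop :=
  PowerSeries.mk f * (1 - PowerSeries.X) ^ (n + 1) = (w : PowerSeries ℝ)

lemma isNum_step (n : ℕ) (f : ℕ → ℝ) (w : ℝ[X]) (u v : ℝ) (h : IsNum n f w) :
    IsNum (n + 1) (fun t => (u * t + v) * f t) (T n u v w) := by
  unfold IsNum at *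
  set F := PowerSeries.mk f with hF
  have h1 : PowerSeries.mk (fun t : ℕ => (u * t + v) * f t) =
      PowerSeries.C u * (PowerSeries.X * PowerSeries.derivative ℝ F) + PowerSeries.C v * F := by
    ext t
    rw [map_add, PowerSeries.coeff_C_mul, PowerSeries.coeff_C_mul, PowerSeries.coeff_mk]
    cases t with
    | zero => simp [hF]
    | succ t =>
      rw [PowerSeries.coeff_succ_X_mul, PowerSeries.coeff_derivative, hF,
        PowerSeries.coeff_mk]
      push_cast; ring
  have h2 : PowerSeries.derivative ℝ (F * (1 - PowerSeries.X) ^ (n + 1)) =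
      ((derivative w : ℝ[X]) : PowerSeries ℝ) := by
    rw [h, PowerSeries.derivative_coe]
  have h3 : PowerSeries.derivative ℝ (F * (1 - PowerSeries.X) ^ (n + 1)) =
      PowerSeries.derivative ℝ F * (1 - PowerSeries.X) ^ (n + 1) -
        F * (((n : PowerSeries ℝ) + 1) * (1 - PowerSeries.X) ^ n) := by
    have e1 := (PowerSeries.derivative ℝ).leibniz F ((1 - PowerSeries.X) ^ (n + 1))
    have e2 := PowerSeries.derivative_pow (1 - PowerSeries.X : PowerSeries ℝ) (n + 1)
    have e3 : PowerSeries.derivative ℝ (1 - PowerSeries.X : PowerSeries ℝ) = -1 := by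
      rw [map_sub, PowerSeries.derivative_one, PowerSeries.derivative_X]; ring
    rw [e1, e2, e3]
    simp only [smul_eq_mul, Nat.add_sub_cancel]
    push_cast
    ring
  have h4 : ((T n u v w : ℝ[X]) : PowerSeries ℝ) =
      PowerSeries.C u * (PowerSeries.X * (1 - PowerSeries.X)) *
        ((derivative w : ℝ[X]) : PowerSeries ℝ) +
      (PowerSeries.C u * ((n : PowerSeries ℝ) + 1) * PowerSeries.X +
        PowerSeries.C v * (1 - PowerSeries.X)) * (w : PowerSeries ℝ) := by
    have e5 : (PowerSeries.C (u * ((n : ℝ) + 1)) : PowerSeries ℝ) =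
        PowerSeries.C u * ((n : PowerSeries ℝ) + 1) := by
      rw [map_mul, map_add, map_one, map_natCast]
    unfold T
    simp only [Polynomial.coe_add, Polynomial.coe_mul, Polynomial.coe_C, Polynomial.coe_X,
      Polynomial.coe_sub, Polynomial.coe_one, e5]
  rw [h1, h4, ← h2, h3, ← h]
  ring

lemma isNum_zero : IsNum 0 (fun _ => 1) 1 := by
  unfold IsNum
  rw [zero_add, pow_one, Polynomial.coe_one]
  exact PowerSeries.mk_one_mul_one_sub_eq_one ℝ

lemma isNum_smul (n : ℕ) (f : ℕ → ℝ) (w : ℝ[X]) (c : ℝ) (h : IsNum n f w) :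
    IsNum n (fun t => c * f t) (C c * w) := by
  unfold IsNum at *
  have h1 : PowerSeries.mk (fun t : ℕ => c * f t) = PowerSeries.C c * PowerSeries.mk f := by
    ext t; simp
  rw [h1, Polynomial.coe_mul, Polynomial.coe_C, ← h]
  ring

lemma isNum_unique (n : ℕ) (f : ℕ → ℝ) (w w' : ℝ[X]) (h : IsNum n f w) (h' : IsNum n f w') :
    w = w' := by
  unfold IsNum at *
  exact Polynomial.coe_injective ℝ (h.symm.trans h')

lemma good_smul {w : ℝ[X]} {s : Finset ℝ} {c : ℝ} (hc : 0 < c) (h : Good w s) :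
    Good (C c * w) s := by
  obtain ⟨h1, d, hd, rfl⟩ := h
  exact ⟨h1, c * d, mul_pos hc hd, by rw [C_mul, mul_assoc]⟩

/-- products of linear factors `u t + v` with `0 < v ≤ u`. -/
theorem isNum_prod (m : ℕ) (u v : ℕ → ℝ) (hv : ∀ i < m, 0 < v i) (huv : ∀ i < m, v i ≤ u i) :
    ∃ (w : ℝ[X]) (s : Finset ℝ), IsNum m (fun t => ∏ i ∈ Finset.range m, (u i * t + v i)) w ∧
      Good w s ∧ ((s.card = m ∧ ∀ i < m, v i < u i) ∨ (s.card + 1 = m ∧ ∃ i < m, v i = u i)) := by
  induction m with
  | zero =>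
    refine ⟨1, ∅, ?_, ⟨by simp, 1, one_pos, by simp⟩, Or.inl ⟨by simp, by simp⟩⟩
    simpa using isNum_zero
  | succ m ih =>
    obtain ⟨w, s, h1, h2, h3⟩ := ih (fun i hi => hv i (by omega)) (fun i hi => huv i (by omega))
    have hvm := hv m (by omega)
    have huvm := huv m (by omega)
    have hum : 0 < u m := lt_of_lt_of_le hvm huvm
    have hs : s.card ≤ m := by rcases h3 with h | h <;> omega
    obtain ⟨s', hg, hs'⟩ := step m hum hvm huvm hs h2
    refine ⟨_, s', ?_, hg, ?_⟩
    · have := isNum_step m _ w (u m) (v m) h1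
      convert this using 2
      rename_i t
      rw [Finset.prod_range_succ, mul_comm]
    · rcases h3 with ⟨h4, h5⟩ | ⟨h4, i, hi, h5⟩
      · rcases hs' with ⟨h6, h7⟩ | ⟨h6, h7, h8⟩
        · left
          refine ⟨by omega, fun i hi => ?_⟩
          rcases Nat.lt_succ_iff_lt_or_eq.1 hi with h | h
          · exact h5 i h
          · rcases h7 with h7 | h7
            · omega
            · rw [h]; exact h7
        · right
          exact ⟨by omega, m, by omega, h8⟩
      · right
        refine ⟨?_, i, by omega, h5⟩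
        rcases hs' with ⟨h6, h7⟩ | ⟨h6, h7, h8⟩ <;> omega

end Pool.Agent.H125R3.PS
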